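import Mathlib
import Pool.Agent.Helper50.PR.Defs

/-!
# Pell lemmas (module PR-7)
-/

namespace Pool.Agent.Helper50.PR

theorem xn_modEq_sq {b : ℕ} (b1 : 1 < b) (h : ℕ) :
    (Pell.xn b1 h : ℤ) ≡ 1 + (h : ℤ) ^ 2 * ((b : ℤ) - 1) [ZMOD ((b : ℤ) - 1) ^ 2] := by
  have key : ∀ h : ℕ,
      (((b : ℤ) - 1) ^ 2 ∣ (1 + (h : ℤ) ^ 2 * ((b : ℤ) - 1)) - (Pell.xn b1 h : ℤ)) ∧
      (((b : ℤ) - 1) ^ 2 ∣
        (1 + ((h + 1 : ℕ) : ℤ) ^ 2 * ((b : ℤ) - 1)) - (Pell.xn b1 (h + 1) : ℤ)) := by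
    intro h
    induction h with
    | zero =>
      refine ⟨by simp, ?_⟩
      have : (Pell.xn b1 (0 + 1) : ℤ) = b := by simp
      rw [this]
      have e : (1 + ((0 + 1 : ℕ) : ℤ) ^ 2 * ((b : ℤ) - 1)) - (b : ℤ) = 0 := by push_cast; ring
      rw [e]
      exact dvd_zero _
    | succ h ih =>
      refine ⟨ih.2, ?_⟩
      obtain ⟨⟨s, hs⟩, t, ht⟩ := ih
      have hrec : (Pell.xn b1 (h + 2) : ℤ) + Pell.xn b1 h = 2 * b * Pell.xn b1 (h + 1) := by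
        exact_mod_cast Pell.xn_succ_succ b1 h
      refine ⟨2 * b * t - s - 2 * ((h : ℤ) + 1) ^ 2, ?_⟩
      have e : ((h + 1 + 1 : ℕ) : ℤ) = (h : ℤ) + 2 := by push_cast; ring
      have e' : ((h + 1 : ℕ) : ℤ) = (h : ℤ) + 1 := by push_cast; ring
      rw [e]
      rw [e'] at ht
      have h2 : (Pell.xn b1 (h + 1 + 1) : ℤ) = 2 * b * Pell.xn b1 (h + 1) - Pell.xn b1 h := by
        linarith
      rw [h2]
      linear_combination 2 * (b : ℤ) * ht - hs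
  exact Int.modEq_iff_dvd.mpr (key h).1

theorem xn_parity_dvd {a : ℕ} (a1 : 1 < a) (n : ℕ) :
    (((a : ℤ) ^ 2 - 1) ∣ (Pell.xn a1 (2 * n) : ℤ) - 1) ∧
      (((a : ℤ) ^ 2 - 1) ∣ (Pell.xn a1 (2 * n + 1) : ℤ) - a) := by
  induction n with
  | zero => simp
  | succ n ih =>
    obtain ⟨⟨s, hs⟩, t, ht⟩ := ih
    have h1 : (Pell.xn a1 (2 * n + 2) : ℤ) + Pell.xn a1 (2 * n) =
        2 * a * Pell.xn a1 (2 * n + 1) := by
      exact_mod_cast Pell.xn_succ_succ a1 (2 * n)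
    have h2 : (Pell.xn a1 (2 * n + 1 + 2) : ℤ) + Pell.xn a1 (2 * n + 1) =
        2 * a * Pell.xn a1 (2 * n + 1 + 1) := by
      exact_mod_cast Pell.xn_succ_succ a1 (2 * n + 1)
    have e1 : 2 * (n + 1) = 2 * n + 2 := by ring
    have e2 : 2 * (n + 1) + 1 = 2 * n + 1 + 2 := by ring
    have h3 : (((a : ℤ) ^ 2 - 1) ∣ (Pell.xn a1 (2 * n + 2) : ℤ) - 1) :=
      ⟨2 * a * t - s + 2, by linear_combination h1 + 2 * (a : ℤ) * ht - hs⟩
    rw [e1]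
    refine ⟨h3, ?_⟩
    obtain ⟨w, hw⟩ := h3
    have e3 : 2 * n + 2 + 1 = 2 * n + 1 + 2 := by ring
    rw [e3]
    refine ⟨2 * a * w - t, ?_⟩
    have e4 : (Pell.xn a1 (2 * n + 1 + 1) : ℤ) = Pell.xn a1 (2 * n + 2) := rfl
    rw [e4] at h2
    linear_combination h2 + 2 * (a : ℤ) * hw - ht

theorem xn_odd_dvd {a : ℕ} (a1 : 1 < a) (k : ℕ) (hk : Odd k) :
    (((a : ℤ) ^ 2 - 1) ∣ (Pell.xn a1 k : ℤ) - a) := by
  obtain ⟨n, rfl⟩ := hk
  exact (xn_parity_dvd a1 n).2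

theorem xn_even_dvd {a : ℕ} (a1 : 1 < a) (k : ℕ) (hk : Even k) :
    (((a : ℤ) ^ 2 - 1) ∣ (Pell.xn a1 k : ℤ) - 1) := by
  obtain ⟨n, rfl⟩ := hk
  rw [← two_mul]
  exact (xn_parity_dvd a1 n).1

theorem yn_modEq_strong {g : ℕ} (g1 : 1 < g) (j : ℕ) :
    (Pell.yn g1 j : ℤ) ≡ j [ZMOD 2 * (g : ℤ) - 2] := by
  have key : ∀ j : ℕ, ((2 * (g : ℤ) - 2) ∣ (j : ℤ) - (Pell.yn g1 j : ℤ)) ∧
      ((2 * (g : ℤ) - 2) ∣ ((j + 1 : ℕ) : ℤ) - (Pell.yn g1 (j + 1) : ℤ)) := by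
    intro j
    induction j with
    | zero => simp
    | succ j ih =>
      refine ⟨ih.2, ?_⟩
      obtain ⟨⟨s, hs⟩, t, ht⟩ := ih
      have hrec : (Pell.yn g1 (j + 2) : ℤ) + Pell.yn g1 j = 2 * g * Pell.yn g1 (j + 1) := by
        exact_mod_cast Pell.yn_succ_succ g1 j
      have h2 : (Pell.yn g1 (j + 1 + 1) : ℤ) = 2 * g * Pell.yn g1 (j + 1) - Pell.yn g1 j := by
        linarith
      refine ⟨2 * g * t - s - (j + 1), ?_⟩
      rw [h2]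
      push_cast at ht ⊢
      linear_combination 2 * (g : ℤ) * ht - hs
  exact Int.modEq_iff_dvd.mpr (key j).1

theorem yn_succ_bounds {g : ℕ} (g1 : 1 < g) (j : ℕ) :
    (2 * g - 1) ^ j ≤ Pell.yn g1 (j + 1) ∧ Pell.yn g1 (j + 1) ≤ (2 * g) ^ j := by
  induction j with
  | zero => simp
  | succ j ih =>
    have hrec : Pell.yn g1 (j + 2) + Pell.yn g1 j = 2 * g * Pell.yn g1 (j + 1) :=
      Pell.yn_succ_succ g1 j
    have hmono : Pell.yn g1 j ≤ Pell.yn g1 (j + 1) :=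
      (Pell.strictMono_y g1).monotone (Nat.le_succ j)
    obtain ⟨h1, h2⟩ := ih
    have e : Pell.yn g1 (j + 1 + 1) = Pell.yn g1 (j + 2) := rfl
    rw [e]
    constructor
    · rw [pow_succ]
      have h3 : (2 * g - 1) ^ j * (2 * g - 1) ≤ Pell.yn g1 (j + 1) * (2 * g - 1) :=
        Nat.mul_le_mul_right _ h1
      refine h3.trans ?_
      have h4 : Pell.yn g1 (j + 1) * (2 * g - 1) + Pell.yn g1 (j + 1) =
          2 * g * Pell.yn g1 (j + 1) := by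
        have : 2 * g = (2 * g - 1) + 1 := by omega
        conv_rhs => rw [this]
        ring
      omega
    · rw [pow_succ]
      have h3 : Pell.yn g1 (j + 1) * (2 * g) ≤ (2 * g) ^ j * (2 * g) :=
        Nat.mul_le_mul_right _ h2
      refine le_trans ?_ h3
      rw [mul_comm (Pell.yn g1 (j + 1))]
      omega

end Pool.Agent.Helper50.PR
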